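import Mathlib
import Pool.Agent.Work.MP_83f734_co.LowerE

set_option autoImplicit false
set_option linter.all false

/-!
# The relaxation complexity of `Δ_5` over subfields of the reals

For every subfield `F` of `ℝ` other than `ℚ` (in particular for every real quadratic field) we
prove that the relaxation complexity of `Δ_5 = {0, e_1, …, e_5}` over `F` is exactly `5`.
The upper bound is an explicit system of five inequalities (this file), the lower bound (no four
real inequalities cut out `Δ_5`) is in `Pool.Agent.Work.MP_83f734_co.LowerE`.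
-/

namespace Pool.Agent.Results.MP_83f734_co.ExactValue

/-- The polyhedron `{x ∈ ℝ^d : A x ≤ b}` given by `k` linear inequalities. -/
def polyhedron {k d : ℕ} (A : Matrix (Fin k) (Fin d) ℝ) (b : Fin k → ℝ) : Set (Fin d → ℝ) :=
  {x | ∀ i, ∑ j, A i j * x j ≤ b i}

/-- The integer lattice `ℤ^d` inside `ℝ^d`. -/
def latticePoints (d : ℕ) : Set (Fin d → ℝ) :=
  {x | ∀ j, ∃ n : ℤ, x j = (n : ℝ)}

/-- `X` has an `F`-relaxation `{x : A x ≤ b}` given by `k` inequalities with all entries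
of `A` and `b` in the subfield `F`. -/
def HasRelaxation (F : Subfield ℝ) {d : ℕ} (X : Set (Fin d → ℝ)) (k : ℕ) : Prop :=
  ∃ (A : Matrix (Fin k) (Fin d) ℝ) (b : Fin k → ℝ),
    (∀ i j, A i j ∈ F) ∧ (∀ i, b i ∈ F) ∧ polyhedron A b ∩ latticePoints d = X

/-- `Δ_d = {0, e_1, …, e_d}`. -/
def simplexPoints (d : ℕ) : Set (Fin d → ℝ) :=
  {x | x = 0 ∨ ∃ i, x = Pi.single i 1}

/-- The relaxation complexity of `X` over `F`: the least number of inequalities of an
`F`-relaxation of `X`. -/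
noncomputable def rc (F : Subfield ℝ) {d : ℕ} (X : Set (Fin d → ℝ)) : ℕ :=
  sInf {k | HasRelaxation F X k}

/-- Core computation: integer points satisfying the five inequalities. -/
theorem core (t : ℝ) (ht0 : 0 < t) (ht1 : t < 1) (hirr : Irrational t)
    (p1 p2 q1 q2 q3 : ℤ)
    (hb : -t * p1 + p2 + 10 * q1 + 10 * q2 + 10 * q3 ≤ 10)
    (hc : -(10 + t) * q1 - 9 * q2 - 10 * q3 ≤ 0)
    (h1 : -(10 - t) * p1 - 22 * p2 - (10 - t) * q1 - 20 * q3 ≤ 0)
    (h2 : 20 * p1 + 9 * p2 + 2 * t * q1 + 9 * q2 + 20 * q3 ≤ 20)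
    (h3 : -(10 - 2 * t) * p1 + 10 * p2 + 10 * q1 - 12 * q2 ≤ 10) :
    (p1 = 0 ∧ p2 = 0 ∧ q1 = 0 ∧ q2 = 0 ∧ q3 = 0) ∨
    (p1 = 1 ∧ p2 = 0 ∧ q1 = 0 ∧ q2 = 0 ∧ q3 = 0) ∨
    (p1 = 0 ∧ p2 = 1 ∧ q1 = 0 ∧ q2 = 0 ∧ q3 = 0) ∨
    (p1 = 0 ∧ p2 = 0 ∧ q1 = 1 ∧ q2 = 0 ∧ q3 = 0) ∨
    (p1 = 0 ∧ p2 = 0 ∧ q1 = 0 ∧ q2 = 1 ∧ q3 = 0) ∨
    (p1 = 0 ∧ p2 = 0 ∧ q1 = 0 ∧ q2 = 0 ∧ q3 = 1) := by
  -- change of variables
  obtain ⟨a, ha⟩ : ∃ a : ℤ, a = q1 := ⟨_, rfl⟩
  obtain ⟨b, hb'⟩ : ∃ b : ℤ, b = q1 + q2 := ⟨_, rfl⟩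
  obtain ⟨s, hs⟩ : ∃ s : ℤ, s = 1 + q1 + q2 + q3 := ⟨_, rfl⟩
  obtain ⟨x, hx⟩ : ∃ x : ℤ, x = p1 - a := ⟨_, rfl⟩
  obtain ⟨y, hy⟩ : ∃ y : ℤ, y = p2 + a - b := ⟨_, rfl⟩
  -- G = (t+1) a - b, T = t x
  set G : ℝ := (t + 1) * a - b with hG
  set T : ℝ := t * x with hT
  have e1 : (p1 : ℝ) = x + a := by rw [hx]; push_cast; ring
  have e2 : (p2 : ℝ) = y - a + b := by rw [hy]; push_cast; ring
  have e3 : (q1 : ℝ) = a := by rw [ha]
  have e4 : (q2 : ℝ) = b - a := by rw [hb', ha]; push_cast; ring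
  have e5 : (q3 : ℝ) = s - 1 - b := by rw [hs, hb']; push_cast; ring
  rw [e1, e2, e3, e4, e5] at hb
  rw [e3, e4, e5] at hc
  rw [e1, e2, e3, e5] at h1
  rw [e1, e2, e3, e4, e5] at h2
  rw [e1, e2, e3, e4] at h3
  have hb2 : 0 ≤ 10 * (2 - (s:ℝ)) + T - y + G := by rw [hG, hT]; linarith
  have hc2 : 0 ≤ 10 * ((s:ℝ) - 1) + G := by rw [hG]; linarith
  -- X = x + s - 1, Y = y + s - 1, Z = s - X - Y = 2 - s - x - y
  have h12 : 0 ≤ 10 * (1 + (y + s - 1) - (2 - s - x - y)) - T + 2 * y - 2 * G := by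
    rw [hG, hT]; linarith
  have h22 : 0 ≤ 10 * (1 + (2 - s - x - y) - (x + s - 1)) + y - 2 * G := by
    rw [hG]; linarith
  have h32 : 0 ≤ 10 * (1 + (x:ℝ) - y) - 2 * T - 2 * G := by
    rw [hG, hT]; linarith
  clear_value G T
  -- T is between 0 and x
  have hTb : (0 ≤ (x:ℝ) ∧ 0 ≤ T ∧ T ≤ x) ∨ ((x:ℝ) ≤ 0 ∧ T ≤ 0 ∧ (x:ℝ) ≤ T) := by
    rcases le_total 0 (x:ℝ) with h | h
    · left
      refine ⟨h, ?_, ?_⟩
      · rw [hT]; exact mul_nonneg ht0.le h
      · rw [hT]; nlinarith
    · right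
      refine ⟨h, ?_, ?_⟩
      · rw [hT]; exact mul_nonpos_of_nonneg_of_nonpos ht0.le h
      · rw [hT]; nlinarith
  have hs1 : 1 ≤ s := by
    by_contra hcon
    have : (s:ℝ) ≤ 0 := by exact_mod_cast (by omega : s ≤ 0)
    rcases hTb with ⟨q, r, u⟩ | ⟨q, r, u⟩ <;> linarith
  have hs2 : s ≤ 2 := by
    by_contra hcon
    have : (3:ℝ) ≤ s := by exact_mod_cast (by omega : 3 ≤ s)
    rcases hTb with ⟨q, r, u⟩ | ⟨q, r, u⟩ <;> linarith
  have hs3 : s = 1 ∨ s = 2 := by omega
  have key : ∀ m n : ℤ, (t + 1) * (m : ℝ) - n = 0 → m = 0 ∧ n = 0 := by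
    intro m n h
    have hm : m = 0 := by
      by_contra hm
      apply hirr
      have hm' : (m : ℝ) ≠ 0 := by exact_mod_cast hm
      refine ⟨(n : ℚ) / m - 1, ?_⟩
      push_cast
      field_simp
      linarith
    refine ⟨hm, ?_⟩
    rw [hm] at h
    have : (n : ℝ) = 0 := by simpa using h
    exact_mod_cast this
  rcases hs3 with hs3 | hs3
  · have hsr : (s : ℝ) = 1 := by rw [hs3]; norm_num
    rw [hsr] at hb2 hc2 h12 h22
    have hD1 : 0 ≤ x + 2 * y := by
      by_contra hcon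
      have : (x:ℝ) + 2 * y ≤ -1 := by exact_mod_cast (by omega : x + 2 * y ≤ -1)
      rcases hTb with ⟨q, r, u⟩ | ⟨q, r, u⟩ <;> linarith
    have hD2 : 0 ≤ 2 - 2 * x - y := by
      by_contra hcon
      have : 2 - 2 * (x:ℝ) - y ≤ -1 := by exact_mod_cast (by omega : 2 - 2 * x - y ≤ -1)
      rcases hTb with ⟨q, r, u⟩ | ⟨q, r, u⟩ <;> linarith
    have hD3 : 0 ≤ 1 + x - y := by
      by_contra hcon
      have : 1 + (x:ℝ) - y ≤ -1 := by exact_mod_cast (by omega : 1 + x - y ≤ -1)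
      rcases hTb with ⟨q, r, u⟩ | ⟨q, r, u⟩ <;> linarith
    have hcase : (x = 0 ∧ y = 0) ∨ (x = 1 ∧ y = 0) ∨ (x = 0 ∧ y = 1) := by omega
    rcases hcase with ⟨hx0, hy0⟩ | ⟨hx0, hy0⟩ | ⟨hx0, hy0⟩
    · have hG0 : G = 0 := by
        rw [hx0, hy0] at h12
        rw [hx0] at hT
        push_cast at h12 hT
        linarith
      rw [hG] at hG0
      have := key a b hG0
      omega
    · have hG0 : G = 0 := by
        rw [hx0, hy0] at h22
        push_cast at h22
        linarith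
      rw [hG] at hG0
      have := key a b hG0
      omega
    · have hG0 : G = 0 := by
        rw [hx0, hy0] at h32
        rw [hx0] at hT
        push_cast at h32 hT
        linarith
      rw [hG] at hG0
      have := key a b hG0
      omega
  · have hsr : (s : ℝ) = 2 := by rw [hs3]; norm_num
    rw [hsr] at hb2 hc2 h12 h22
    have hD1 : 0 ≤ x + 2 * y + 2 := by
      by_contra hcon
      have : (x:ℝ) + 2 * y + 2 ≤ -1 := by exact_mod_cast (by omega : x + 2 * y + 2 ≤ -1)
      rcases hTb with ⟨q, r, u⟩ | ⟨q, r, u⟩ <;> linarith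
    have hD2 : 0 ≤ - 2 * x - y := by
      by_contra hcon
      have : - 2 * (x:ℝ) - y ≤ -1 := by exact_mod_cast (by omega : - 2 * x - y ≤ -1)
      rcases hTb with ⟨q, r, u⟩ | ⟨q, r, u⟩ <;> linarith
    have hD3 : 0 ≤ 1 + x - y := by
      by_contra hcon
      have : 1 + (x:ℝ) - y ≤ -1 := by exact_mod_cast (by omega : 1 + x - y ≤ -1)
      rcases hTb with ⟨q, r, u⟩ | ⟨q, r, u⟩ <;> linarith
    have hcase : (x = 0 ∧ y = 0) ∨ (x = -1 ∧ y = 0) ∨ (x = 0 ∧ y = -1) := by omega
    rcases hcase with ⟨hx0, hy0⟩ | ⟨hx0, hy0⟩ | ⟨hx0, hy0⟩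
    · have hG0 : G = 0 := by
        have hxr : (x:ℝ) = 0 := by rw [hx0]; norm_num
        have hyr : (y:ℝ) = 0 := by rw [hy0]; norm_num
        rw [hxr] at hT
        linarith
      rw [hG] at hG0
      have := key a b hG0
      omega
    · have hG0 : G = t := by
        have hxr : (x:ℝ) = -1 := by rw [hx0]; norm_num
        have hyr : (y:ℝ) = 0 := by rw [hy0]; norm_num
        rw [hxr] at hT
        linarith
      rw [hG] at hG0
      have := key (a - 1) (b - 1) (by push_cast; linarith)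
      omega
    · have hG0 : G = -1 := by
        have hxr : (x:ℝ) = 0 := by rw [hx0]; norm_num
        have hyr : (y:ℝ) = -1 := by rw [hy0]; norm_num
        rw [hxr] at hT
        linarith
      rw [hG] at hG0
      have := key a (b - 1) (by push_cast; linarith)
      omega

/-- A subfield of `ℝ` other than `ℚ` contains an irrational number in `(0,1)`. -/
theorem exists_irrational {F : Subfield ℝ} (hF : F ≠ ⊥) :
    ∃ t : ℝ, t ∈ F ∧ 0 < t ∧ t < 1 ∧ Irrational t := by
  have h1 : ∃ x : ℝ, x ∈ F ∧ Irrational x := by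
    by_contra hcon
    push Not at hcon
    apply hF
    apply le_antisymm _ bot_le
    intro x hx
    have := hcon x hx
    rw [Irrational, not_not] at this
    obtain ⟨q, rfl⟩ := this
    exact SubfieldClass.ratCast_mem ⊥ q
  obtain ⟨x, hx, hirr⟩ := h1
  refine ⟨Int.fract x, ?_, ?_, Int.fract_lt_one x, ?_⟩
  · have : Int.fract x = x - (⌊x⌋ : ℝ) := rfl
    rw [this]
    exact sub_mem hx (intCast_mem F _)
  · rcases (Int.fract_nonneg x).lt_or_eq with h | h
    · exact h
    · exfalso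
      rw [eq_comm, Int.fract_eq_zero_iff] at h
      obtain ⟨z, hz⟩ := h
      exact hirr ⟨z, by simpa using hz⟩
  · have : Int.fract x = x - (⌊x⌋ : ℝ) := rfl
    rw [this]
    exact hirr.sub_intCast _

/-- The explicit matrix. -/
noncomputable def Amat (t : ℝ) : Matrix (Fin 5) (Fin 5) ℝ :=
  !![-t, 1, 10, 10, 10;
     0, 0, -(10 + t), -9, -10;
     -(10 - t), -22, -(10 - t), 0, -20;
     20, 9, 2 * t, 9, 20;
     -(10 - 2 * t), 10, 10, -12, 0]

/-- The explicit right-hand side. -/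
noncomputable def bvec : Fin 5 → ℝ := ![10, 0, 0, 20, 10]

/-- For every subfield `F` of `ℝ` other than `ℚ`, the set `Δ_5` has an `F`-relaxation
given by five inequalities. -/
theorem hasRelaxation_five (F : Subfield ℝ) (hF : F ≠ ⊥) :
    HasRelaxation F (simplexPoints 5) 5 := by
  obtain ⟨t, htF, ht0, ht1, hirr⟩ := exists_irrational hF
  have h2t : 2 * t ∈ F := mul_mem (ofNat_mem F 2) htF
  refine ⟨Amat t, bvec, ?_, ?_, ?_⟩
  · intro i j
    fin_cases i <;> fin_cases j <;>
      simp [Amat, h2t, htF, sub_mem, add_mem]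
  · intro i
    fin_cases i <;> simp [bvec]
  · ext x
    constructor
    · rintro ⟨hx, hz⟩
      choose z hz using hz
      have r0 := hx 0
      have r1 := hx 1
      have r2 := hx 2
      have r3 := hx 3
      have r4 := hx 4
      simp only [Fin.sum_univ_five, hz, Amat, bvec] at r0 r1 r2 r3 r4
      simp at r0 r1 r2 r3 r4
      have := core t ht0 ht1 hirr (z 0) (z 1) (z 2) (z 3) (z 4)
        (by linarith) (by linarith) (by linarith) (by linarith) (by linarith)
      have hxz : ∀ j, x j = (z j : ℝ) := hz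
      rcases this with h | h | h | h | h | h
      · left
        obtain ⟨a0, a1, a2, a3, a4⟩ := h
        ext j
        fin_cases j <;> simp [hxz, a0, a1, a2, a3, a4]
      · right
        refine ⟨0, ?_⟩
        obtain ⟨a0, a1, a2, a3, a4⟩ := h
        ext j
        fin_cases j <;> simp [hxz, a0, a1, a2, a3, a4]
      · right
        refine ⟨1, ?_⟩
        obtain ⟨a0, a1, a2, a3, a4⟩ := h
        ext j
        fin_cases j <;> simp [hxz, a0, a1, a2, a3, a4]
      · right
        refine ⟨2, ?_⟩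
        obtain ⟨a0, a1, a2, a3, a4⟩ := h
        ext j
        fin_cases j <;> simp [hxz, a0, a1, a2, a3, a4]
      · right
        refine ⟨3, ?_⟩
        obtain ⟨a0, a1, a2, a3, a4⟩ := h
        ext j
        fin_cases j <;> simp [hxz, a0, a1, a2, a3, a4]
      · right
        refine ⟨4, ?_⟩
        obtain ⟨a0, a1, a2, a3, a4⟩ := h
        ext j
        fin_cases j <;> simp [hxz, a0, a1, a2, a3, a4]
    · rintro (rfl | ⟨i, rfl⟩)
      · refine ⟨?_, fun j => ⟨0, by simp⟩⟩
        intro i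
        fin_cases i <;> simp [Fin.sum_univ_five, Amat, bvec]
      · refine ⟨?_, fun j => ⟨if j = i then 1 else 0, ?_⟩⟩
        · intro k
          fin_cases i <;> fin_cases k <;> simp [Fin.sum_univ_five, Amat, bvec] <;> linarith
        · by_cases h : j = i
          · subst h; simp
          · simp [h]

/-! ### The lower bound -/

open Pool.Agent.Work.MP_83f734_co in
/-- No four (or fewer) real inequalities cut out `Δ_5`. -/
theorem five_le (F : Subfield ℝ) (k : ℕ) (h : HasRelaxation F (simplexPoints 5) k) : 5 ≤ k := by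
  by_contra hk
  push Not at hk
  obtain ⟨A, b, -, -, hAb⟩ := h
  -- pad to four rows
  let A' : Fin 4 → Fin 5 → ℝ := fun i j => if hi : (i : ℕ) < k then A ⟨i, hi⟩ j else 0
  let b' : Fin 4 → ℝ := fun i => if hi : (i : ℕ) < k then b ⟨i, hi⟩ else 0
  have hbad : Bad A' b' := by
    intro z
    have hL : ∀ i : Fin 4, Lf (A' i) z = if hi : (i : ℕ) < k then
        ∑ j, A ⟨i, hi⟩ j * (z j : ℝ) else 0 := by
      intro i
      rw [Lf_apply]
      by_cases hi : (i : ℕ) < k
      · simp [A', hi]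
      · simp [A', hi]
    have h1 : (∀ i, Lf (A' i) z ≤ b' i) ↔ (fun j => (z j : ℝ)) ∈ polyhedron A b := by
      constructor
      · intro h i
        have h2 := h ⟨i, by omega⟩
        rw [hL] at h2
        simpa [b'] using h2
      · intro h i
        rw [hL]
        by_cases hi : (i : ℕ) < k
        · simp only [b', hi, dif_pos]
          exact h ⟨i, hi⟩
        · simp [b', hi]
    have h2 : (fun j => (z j : ℝ)) ∈ latticePoints 5 := fun j => ⟨z j, rfl⟩
    have h3 : (fun j => (z j : ℝ)) ∈ simplexPoints 5 ↔ ∃ k, z = pt k := by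
      constructor
      · rintro (h4 | ⟨i, h4⟩)
        · refine ⟨0, ?_⟩
          ext j
          have := congrFun h4 j
          have h5 : ((z j : ℤ) : ℝ) = 0 := this
          have h6 : z j = 0 := by exact_mod_cast h5
          rw [h6, pt_zero]; rfl
        · refine ⟨i.succ, ?_⟩
          ext j
          have h5 : ((z j : ℤ) : ℝ) = (Pi.single i (1 : ℝ) : Fin 5 → ℝ) j := congrFun h4 j
          have h6 : pt i.succ j = (Pi.single i (1 : ℤ) : Fin 5 → ℤ) j := rfl
          rw [h6]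
          by_cases hij : j = i
          · subst hij
            rw [Pi.single_eq_same] at h5 ⊢
            exact_mod_cast h5
          · rw [Pi.single_eq_of_ne hij] at h5 ⊢
            exact_mod_cast h5
      · rintro ⟨k, rfl⟩
        refine Fin.cases ?_ (fun i => ?_) k
        · left
          ext j
          simp [pt_zero]
        · right
          refine ⟨i, ?_⟩
          ext j
          have h6 : pt i.succ j = (Pi.single i (1 : ℤ) : Fin 5 → ℤ) j := rfl
          show ((pt i.succ j : ℤ) : ℝ) = _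
          rw [h6]
          by_cases hij : j = i
          · subst hij; simp
          · simp [hij]
    rw [h1, ← h3, ← hAb]
    exact ⟨fun h => ⟨h, h2⟩, fun h => h.1⟩
  exact hbad.false

/-- a subfield of degree two is not `ℚ` -/
theorem ne_bot_of_finrank (F : Subfield ℝ) (h : Module.finrank ℚ F = 2) : F ≠ ⊥ := by
  rintro rfl
  have h1 : Module.finrank ℚ (⊥ : Subfield ℝ) ≤ 1 := by
    refine finrank_le_one (1 : (⊥ : Subfield ℝ)) ?_
    rintro ⟨w, hw⟩
    rw [Subfield.bot_eq_of_charZero] at hw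
    obtain ⟨c, hc⟩ := hw
    refine ⟨c, Subtype.ext ?_⟩
    show ((c • (1 : (⊥ : Subfield ℝ)) : (⊥ : Subfield ℝ)) : ℝ) = w
    rw [← hc, Rat.smul_one_eq_cast]
    simp
  omega

/-- For every subfield `F` of `ℝ` other than `ℚ`, and in particular for every real quadratic
field `F`, the relaxation complexity of `Δ_5` over `F` is exactly `5`. -/
theorem result (F : Subfield ℝ) :
    (Module.finrank ℚ F = 2 → rc F (simplexPoints 5) = 5) ∧
      (F ≠ ⊥ → rc F (simplexPoints 5) = 5) := by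
  have main : F ≠ ⊥ → rc F (simplexPoints 5) = 5 := by
    intro hF
    apply le_antisymm
    · exact Nat.sInf_le (hasRelaxation_five F hF)
    · have hne : {k | HasRelaxation F (simplexPoints 5) k}.Nonempty := ⟨5, hasRelaxation_five F hF⟩
      exact five_le F _ (Nat.sInf_mem hne)
  exact ⟨fun h => main (ne_bot_of_finrank F h), main⟩

end Pool.Agent.Results.MP_83f734_co.ExactValue
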